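import Pool.Agent.Lib.MP_d9b062_al.LU

/-!
# Rationality of the block LU decomposition
-/

set_option linter.unusedSectionVars false
set_option linter.unusedVariables false

namespace Pool.Agent.Lib.MP_d9b062_al

open Finset

section Det

variable {E : Type*} [NormedAddCommGroup E] [InnerProductSpace ℝ E] [FiniteDimensional ℝ E]

/-- matrix of an operator in an orthonormal basis -/
noncomputable def matE : (E →L[ℝ] E) ≃ₐ[ℝ]
    Matrix (Fin (Module.finrank ℝ E)) (Fin (Module.finrank ℝ E)) ℝ :=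
  (Module.End.toContinuousLinearMap E).symm.trans
    (LinearMap.toMatrixAlgEquiv (stdOrthonormalBasis ℝ E).toBasis)

/-- determinant of an operator -/
noncomputable def dt (T : E →L[ℝ] E) : ℝ := (matE T).det

/-- adjugate of an operator -/
noncomputable def adjE (T : E →L[ℝ] E) : E →L[ℝ] E := matE.symm (matE T).adjugate

lemma dt_one : dt (1 : E →L[ℝ] E) = 1 := by rw [dt, map_one, Matrix.det_one]

lemma dt_mul (S T : E →L[ℝ] E) : dt (S * T) = dt S * dt T := by
  rw [dt, map_mul, Matrix.det_mul]; rfl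

lemma isUnit_iff_dt (T : E →L[ℝ] E) : IsUnit T ↔ dt T ≠ 0 := by
  rw [dt, ← isUnit_iff_ne_zero, ← Matrix.isUnit_iff_isUnit_det]
  constructor
  · intro h; exact h.map matE
  · intro h
    have := h.map (matE (E := E)).symm
    rwa [AlgEquiv.symm_apply_apply] at this

lemma mul_adjE (T : E →L[ℝ] E) : T * adjE T = dt T • (1 : E →L[ℝ] E) := by
  apply (matE (E := E)).injective
  rw [map_mul, adjE, AlgEquiv.apply_symm_apply, Matrix.mul_adjugate, map_smul, map_one]
  rfl

lemma inverse_eq_adjE {T : E →L[ℝ] E} (h : IsUnit T) : Ring.inverse T = (dt T)⁻¹ • adjE T := by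
  have h1 := mul_adjE T
  have h0 := (isUnit_iff_dt T).mp h
  calc Ring.inverse T = Ring.inverse T * ((dt T)⁻¹ • (dt T • (1 : E →L[ℝ] E))) := by
        rw [smul_smul, inv_mul_cancel₀ h0, one_smul, mul_one]
    _ = Ring.inverse T * ((dt T)⁻¹ • (T * adjE T)) := by rw [h1]
    _ = (dt T)⁻¹ • (Ring.inverse T * T * adjE T) := by rw [mul_smul_comm, mul_assoc]
    _ = (dt T)⁻¹ • adjE T := by rw [Ring.inverse_mul_cancel _ h, one_mul]

lemma matE_star (T : E →L[ℝ] E) : matE (star T) = (matE T).conjTranspose := by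
  have h := LinearMap.toMatrix_adjoint (stdOrthonormalBasis ℝ E) (stdOrthonormalBasis ℝ E)
    (T : E →ₗ[ℝ] E)
  exact h

lemma dt_star (T : E →L[ℝ] E) : dt (star T) = dt T := by
  rw [dt, matE_star, Matrix.det_conjTranspose]
  rfl

lemma dt_unip {T : E →L[ℝ] E} (h : IsNilpotent (1 - T)) : dt T = 1 := by
  set M := matE T with hM
  have h1 : IsNilpotent (1 - M) := by
    have := h.map (matE (E := E))
    rwa [map_sub, map_one] at this
  have h2 : IsNilpotent (Matrix.toLin' (1 - M)) := by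
    have := h1.map (Matrix.toLinAlgEquiv' (R := ℝ) (n := Fin (Module.finrank ℝ E)))
    exact this
  have h3 := h2.charpoly_eq_X_pow_finrank
  have h4 : (1 - M).charpoly = Polynomial.X ^ Module.finrank ℝ E := by
    rw [← Matrix.charpoly_toLin', h3]
    simp
  have h5 := Matrix.eval_charpoly (1 - M) 1
  rw [h4] at h5
  simp only [Polynomial.eval_pow, Polynomial.eval_X, one_pow, Matrix.scalar_apply] at h5
  rw [dt, ← hM]
  rw [h5]
  congr 1
  ext i j
  simp [Matrix.one_apply]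

section

variable {W : Type*} [AddCommGroup W] [Module ℝ W]

/-- entry of the matrix, as a linear functional -/
noncomputable def entry (i j : Fin (Module.finrank ℝ E)) : (E →L[ℝ] E) →ₗ[ℝ] ℝ where
  toFun T := matE T i j
  map_add' S T := by rw [map_add]; rfl
  map_smul' a T := by rw [map_smul]; rfl

lemma PolyFun.det {n : ℕ} {f : W → Matrix (Fin n) (Fin n) ℝ}
    (hf : ∀ i j, (fun x => f x i j) ∈ PolyFun W) : (fun x => (f x).det) ∈ PolyFun W := by
  have h1 : (fun x => (f x).det) = fun x => ∑ σ : Equiv.Perm (Fin n),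
      ((Equiv.Perm.sign σ : ℤ) : ℝ) * ∏ i, (f x) (σ i) i := by
    funext x
    rw [Matrix.det_apply']
  rw [h1]
  exact PolyFun.sum _ fun σ _ => PolyFun.mul (PolyFun.const _) (PolyFun.prod _ fun i _ => hf _ _)

lemma PolyFun.dt {f : W → E →L[ℝ] E} (hf : IsPolyMap f) :
    (fun x => dt (f x)) ∈ PolyFun W :=
  PolyFun.det fun i j => hf (entry i j)

lemma IsPolyMap.adjE {f : W → E →L[ℝ] E} (hf : IsPolyMap f) :
    IsPolyMap (fun x => adjE (f x)) := by
  have h1 : ∀ i j, (fun x => (matE (f x)).adjugate i j) ∈ PolyFun W := by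
    intro i j
    have : (fun x => (matE (f x)).adjugate i j)
        = fun x => ((matE (f x)).updateRow j (Pi.single i 1)).det := by
      funext x
      rw [Matrix.adjugate_apply]
    rw [this]
    refine PolyFun.det fun a b => ?_
    by_cases h : a = j
    · subst h
      have : (fun x => (matE (f x)).updateRow a (Pi.single i (1 : ℝ)) a b)
          = fun _ => (Pi.single i (1 : ℝ) : Fin (Module.finrank ℝ E) → ℝ) b := by
        funext x; rw [Matrix.updateRow_self]
      rw [this]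
      exact PolyFun.const _
    · have : (fun x => (matE (f x)).updateRow j (Pi.single i (1 : ℝ)) a b)
          = fun x => matE (f x) a b := by
        funext x; rw [Matrix.updateRow_ne h]
      rw [this]
      exact hf (entry a b)
  have h2 : (fun x => MP_d9b062_al.adjE (f x)) = fun x => ∑ i, ∑ j,
      (matE (f x)).adjugate i j • (matE (E := E)).symm (Matrix.single i j 1) := by
    funext x
    rw [MP_d9b062_al.adjE]
    conv_lhs => rw [Matrix.matrix_eq_sum_single (matE (f x)).adjugate]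
    rw [map_sum]
    refine Finset.sum_congr rfl fun i _ => ?_
    rw [map_sum]
    refine Finset.sum_congr rfl fun j _ => ?_
    rw [← map_smul, Matrix.smul_single, smul_eq_mul, mul_one]
  rw [h2]
  exact IsPolyMap.sum _ fun i _ => IsPolyMap.sum _ fun j _ =>
    IsPolyMap.smul (h1 i j) (IsPolyMap.const _)

end

end Det

section Rat

variable {E : Type*} [NormedAddCommGroup E] [InnerProductSpace ℝ E] [FiniteDimensional ℝ E]
variable {ι : Type*} [Fintype ι] [LinearOrder ι] {P : ι → E →L[ℝ] E}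

/-- the product of the determinants of all leading compressions -/
noncomputable def bigD (P : ι → E →L[ℝ] E) (T : E →L[ℝ] E) : ℝ := ∏ i, dt (Mi P i T)

/-- the numerator of the lower unipotent factor -/
noncomputable def bigQ (P : ι → E →L[ℝ] E) (T : E →L[ℝ] E) : E →L[ℝ] E :=
  ∑ i, (∏ j ∈ univ.erase i, dt (Mi P j T)) • (T * Qge P i * adjE (Mi P i T) * P i)

lemma isPolyMap_Mi (i : ι) : IsPolyMap (fun T : E →L[ℝ] E => Mi P i T) :=
  (((IsPolyMap.const (Qge P i)).mul IsPolyMap.id).mul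
    (IsPolyMap.const (Qge P i))).add (IsPolyMap.const (Qlt P i))

lemma bigD_mem : bigD P ∈ PolyFun (E →L[ℝ] E) :=
  PolyFun.prod _ fun i _ => PolyFun.dt (isPolyMap_Mi i)

lemma bigQ_poly : IsPolyMap (bigQ P) := by
  refine IsPolyMap.sum _ fun i _ => IsPolyMap.smul
    (PolyFun.prod _ fun j _ => PolyFun.dt (isPolyMap_Mi j)) ?_
  exact ((IsPolyMap.id.mul (IsPolyMap.const (Qge P i))).mul (isPolyMap_Mi i).adjE).mul
    (IsPolyMap.const (P i))

lemma bigD_one (hP : IsGrading P) : bigD P 1 = 1 := by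
  refine Finset.prod_eq_one fun i _ => ?_
  rw [Mi, mul_one, hP.Qge_idem, hP.Q_add, dt_one]

lemma reg_iff_bigD (T : E →L[ℝ] E) : Reg P T ↔ bigD P T ≠ 0 := by
  rw [bigD, Finset.prod_ne_zero_iff]
  exact ⟨fun h i _ => (isUnit_iff_dt _).mp (h i),
    fun h i => (isUnit_iff_dt _).mpr (h i (Finset.mem_univ i))⟩

lemma bigD_star (hs : ∀ i, star (P i) = P i) (T : E →L[ℝ] E) : bigD P (star T) = bigD P T :=
  Finset.prod_congr rfl fun i _ => by rw [← Mi_star hs, dt_star]

lemma yL_eq_bigQ {T : E →L[ℝ] E} (h : Reg P T) : yL P T = (bigD P T)⁻¹ • bigQ P T := by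
  rw [yL, bigQ, Finset.smul_sum]
  refine Finset.sum_congr rfl fun i _ => ?_
  rw [inverse_eq_adjE (h i), smul_smul, mul_smul_comm, smul_mul_assoc]
  congr 1
  rw [bigD, ← Finset.mul_prod_erase univ (fun j => dt (Mi P j T)) (Finset.mem_univ i), mul_inv,
    mul_assoc, inv_mul_cancel₀, mul_one]
  rw [Finset.prod_ne_zero_iff]
  exact fun j _ => (isUnit_iff_dt _).mp (h j)

lemma dt_of_unip (hP : IsGrading P) {s : ι → ι → Prop} (hs : ∀ i j k, s i j → s j k → s i k)
    (hi : ∀ i, ¬ s i i) {T : E →L[ℝ] E} (hT : Unip P s T) : dt T = 1 :=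
  dt_unip ⟨_, (hT.supp hP hi).pow_zero_of_card hP hs hi⟩

lemma Mi_mul_lower (hP : IsGrading P) {y : E →L[ℝ] E} (hy : Unip P (fun i j => i < j) y)
    (T : E →L[ℝ] E) (i : ι) : Mi P i (y * T) = Mi P i y * Mi P i T := by
  have h1 : Qge P i * y = Qge P i * y * Qge P i := by
    have := hy.Qge_mul hP i
    calc Qge P i * y = Qge P i * y * (Qge P i + Qlt P i) := by rw [hP.Q_add, mul_one]
      _ = _ := by rw [mul_add, this, add_zero]
  have e1 : Qge P i * (y * T) * Qge P i = (Qge P i * y * Qge P i) * (Qge P i * T * Qge P i) := by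
    calc Qge P i * (y * T) * Qge P i = (Qge P i * y) * T * Qge P i := by noncomm_ring
      _ = (Qge P i * y * Qge P i) * T * Qge P i := by rw [← h1]
      _ = (Qge P i * y * (Qge P i * Qge P i)) * T * Qge P i := by rw [hP.Qge_idem]
      _ = _ := by noncomm_ring
  have o1 := hP.Qge_Qlt i
  have o2 := hP.Qlt_Qge i
  have o3 := hP.Qlt_idem i
  rw [Mi, e1, Mi, Mi, add_mul, mul_add, mul_add, o3]
  rw [show Qge P i * y * Qge P i * Qlt P i = Qge P i * y * (Qge P i * Qlt P i) by noncomm_ring,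
    show Qlt P i * (Qge P i * T * Qge P i) = (Qlt P i * Qge P i) * T * Qge P i by noncomm_ring,
    o1, o2, mul_zero, zero_mul, zero_mul, add_zero, zero_add]

lemma Mi_mul_upper (hP : IsGrading P) {x : E →L[ℝ] E} (hx : Unip P (fun i j => j < i) x)
    (T : E →L[ℝ] E) (i : ι) : Mi P i (T * x) = Mi P i T * Mi P i x := by
  have h2 : x * Qge P i = Qge P i * x * Qge P i := by
    have := hx.Qlt_mul hP i
    calc x * Qge P i = (Qge P i + Qlt P i) * x * Qge P i := by rw [hP.Q_add, one_mul]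
      _ = _ := by rw [add_mul, add_mul, this, add_zero]
  have e1 : Qge P i * (T * x) * Qge P i = (Qge P i * T * Qge P i) * (Qge P i * x * Qge P i) := by
    calc Qge P i * (T * x) * Qge P i = Qge P i * T * (x * Qge P i) := by noncomm_ring
      _ = Qge P i * T * (Qge P i * x * Qge P i) := by rw [← h2]
      _ = Qge P i * T * ((Qge P i * Qge P i) * x * Qge P i) := by rw [hP.Qge_idem]
      _ = _ := by noncomm_ring
  have o1 := hP.Qge_Qlt i
  have o2 := hP.Qlt_Qge i
  have o3 := hP.Qlt_idem i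
  rw [Mi, e1, Mi, Mi, add_mul, mul_add, mul_add, o3]
  rw [show Qge P i * T * Qge P i * Qlt P i = Qge P i * T * (Qge P i * Qlt P i) by noncomm_ring,
    show Qlt P i * (Qge P i * x * Qge P i) = (Qlt P i * Qge P i) * x * Qge P i by noncomm_ring,
    o1, o2, mul_zero, zero_mul, zero_mul, add_zero, zero_add]

lemma bigD_mul_lower (hP : IsGrading P) {y : E →L[ℝ] E} (hy : Unip P (fun i j => i < j) y)
    (T : E →L[ℝ] E) : bigD P (y * T) = bigD P T := by
  refine Finset.prod_congr rfl fun i _ => ?_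
  rw [Mi_mul_lower hP hy, dt_mul,
    dt_of_unip hP lt_trans' (fun i => lt_irrefl i) (hy.Mi_unip hP i), one_mul]

lemma bigD_mul_upper (hP : IsGrading P) {x : E →L[ℝ] E} (hx : Unip P (fun i j => j < i) x)
    (T : E →L[ℝ] E) : bigD P (T * x) = bigD P T := by
  refine Finset.prod_congr rfl fun i _ => ?_
  rw [Mi_mul_upper hP hx, dt_mul,
    dt_of_unip hP gt_trans' (fun i => lt_irrefl i) (hx.Mi_unip hP i), mul_one]

end Rat

section Comp

variable {W W' : Type*} [AddCommGroup W] [Module ℝ W] [AddCommGroup W'] [Module ℝ W']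

/-- a polynomial function of a rational map -/
theorem PolyFun.comp_rat' {F : W' → ℝ} (hF : F ∈ PolyFun W') {D : W → ℝ} (hD : D ∈ PolyFun W)
    {Q : W → W'} (hQ : IsPolyMap Q) :
    ∃ k : ℕ, ∃ F1 ∈ PolyFun W, ∀ T, D T ≠ 0 → F1 T = D T ^ k * F ((D T)⁻¹ • Q T) := by
  refine PolyFun.induction (p := fun F => ∃ k : ℕ, ∃ F1 ∈ PolyFun W,
    ∀ T, D T ≠ 0 → F1 T = D T ^ k * F ((D T)⁻¹ • Q T)) ?_ ?_ ?_ ?_ hF
  · intro φ
    refine ⟨1, fun T => φ (Q T), hQ φ, fun T hT => ?_⟩
    rw [map_smul, smul_eq_mul, pow_one, ← mul_assoc, mul_inv_cancel₀ hT, one_mul]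
  · intro c
    exact ⟨0, fun _ => c, PolyFun.const c, fun T _ => by rw [pow_zero, one_mul]⟩
  · rintro f g ⟨k, f1, hf1, h1⟩ ⟨l, g1, hg1, h2⟩
    refine ⟨k + l, fun T => D T ^ l * f1 T + D T ^ k * g1 T,
      PolyFun.add (PolyFun.mul (PolyFun.pow hD l) hf1) (PolyFun.mul (PolyFun.pow hD k) hg1),
      fun T hT => ?_⟩
    simp only [h1 T hT, h2 T hT]
    ring
  · rintro f g ⟨k, f1, hf1, h1⟩ ⟨l, g1, hg1, h2⟩
    refine ⟨k + l, fun T => f1 T * g1 T, PolyFun.mul hf1 hg1, fun T hT => ?_⟩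
    simp only [h1 T hT, h2 T hT]
    ring

end Comp

section Op

variable {N : ℕ} {ι : Type*} [Fintype ι] [LinearOrder ι] {P : ι → Op N}

/-- Rationality of the lower unipotent factor, with invariance properties. -/
theorem exists_rat_inv (hP : IsGrading P) (hs : ∀ i, star (P i) = P i) :
    ∃ D ∈ PolyFun (Op N), ∃ Q : Op N → Op N, IsPolyMap Q ∧ D 1 = 1 ∧
      (∀ T, Reg P T ↔ D T ≠ 0) ∧ (∀ T, D (star T) = D T) ∧
      (∀ T, Reg P T → yL P T = (D T)⁻¹ • Q T) ∧
      (∀ y T, Unip P (fun i j => i < j) y → D (y * T) = D T) ∧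
      (∀ T x, Unip P (fun i j => j < i) x → D (T * x) = D T) :=
  ⟨bigD P, bigD_mem, bigQ P, bigQ_poly, bigD_one hP, reg_iff_bigD, bigD_star hs,
    fun _ h => yL_eq_bigQ h, fun _ T hy => bigD_mul_lower hP hy T,
    fun T _ hx => bigD_mul_upper hP hx T⟩

/-- Rationality of the lower unipotent factor. -/
theorem exists_rat (hP : IsGrading P) (hs : ∀ i, star (P i) = P i) :
    ∃ D ∈ PolyFun (Op N), ∃ Q : Op N → Op N, IsPolyMap Q ∧ D 1 = 1 ∧
      (∀ T, Reg P T ↔ D T ≠ 0) ∧ (∀ T, D (star T) = D T) ∧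
      ∀ T, Reg P T → yL P T = (D T)⁻¹ • Q T := by
  obtain ⟨D, h1, Q, h2, h3, h4, h5, h6, _⟩ := exists_rat_inv hP hs
  exact ⟨D, h1, Q, h2, h3, h4, h5, h6⟩

/-- A polynomial function of a rational map is rational. -/
theorem PolyFun.comp_rat {F : Op N → ℝ} (hF : F ∈ PolyFun (Op N)) {D : Op N → ℝ}
    (hD : D ∈ PolyFun (Op N)) {Q : Op N → Op N} (hQ : IsPolyMap Q) :
    ∃ k : ℕ, ∃ F1 ∈ PolyFun (Op N), ∀ T, D T ≠ 0 → F1 T = D T ^ k * F ((D T)⁻¹ • Q T) :=
  PolyFun.comp_rat' hF hD hQ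

end Op

section DD

variable {E : Type*} [NormedAddCommGroup E] [InnerProductSpace ℝ E] [FiniteDimensional ℝ E]
variable {ι : Type*} [Fintype ι] [LinearOrder ι] {P : ι → E →L[ℝ] E}

/-- numerator of the inverse of the lower unipotent factor -/
noncomputable def bigI (P : ι → E →L[ℝ] E) (T : E →L[ℝ] E) : E →L[ℝ] E :=
  ∑ k ∈ Finset.range (Fintype.card ι + 1),
    bigD P T ^ (Fintype.card ι - k) • (bigD P T • (1 : E →L[ℝ] E) - bigQ P T) ^ k

lemma bigI_poly : IsPolyMap (bigI P) := by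
  refine IsPolyMap.sum _ fun k _ => IsPolyMap.smul (PolyFun.pow bigD_mem _) ?_
  exact ((IsPolyMap.smul bigD_mem (IsPolyMap.const 1)).sub bigQ_poly).pow k

lemma inverse_yL (hP : IsGrading P) {T : E →L[ℝ] E} (h : Reg P T) :
    bigI P T = bigD P T ^ Fintype.card ι • Ring.inverse (yL P T) := by
  have h0 := (reg_iff_bigD T).mp h
  rw [(yL_unip hP h).inverse_eq hP lt_trans' (fun i => lt_irrefl i), unipInv, bigI,
    Finset.smul_sum]
  refine Finset.sum_congr rfl fun k hk => ?_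
  have hk' : k ≤ Fintype.card ι := Nat.lt_succ_iff.mp (Finset.mem_range.mp hk)
  have h1 : bigD P T • (1 : E →L[ℝ] E) - bigQ P T = bigD P T • (1 - yL P T) := by
    rw [yL_eq_bigQ h, smul_sub, smul_smul, mul_inv_cancel₀ h0, one_smul]
  rw [h1, smul_pow, smul_smul, ← pow_add, Nat.sub_add_cancel hk']

lemma inverse_xU (hP : IsGrading P) (hs : ∀ i, star (P i) = P i) {T : E →L[ℝ] E}
    (h : Reg P T) :
    star (bigI P (star T)) = bigD P T ^ Fintype.card ι • Ring.inverse (xU P T) := by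
  rw [inverse_yL hP (h.star hs), star_smul, bigD_star hs, xU, inverse_star (yL_isUnit hP (h.star hs))]
  simp

/-- numerator of the block diagonal factor -/
noncomputable def bigT (P : ι → E →L[ℝ] E) (T : E →L[ℝ] E) : E →L[ℝ] E :=
  bigI P T * T * star (bigI P (star T))

lemma bigT_eq (hP : IsGrading P) (hs : ∀ i, star (P i) = P i) {T : E →L[ℝ] E} (h : Reg P T) :
    bigT P T = bigD P T ^ (Fintype.card ι + Fintype.card ι) • dD P T := by
  rw [bigT, inverse_yL hP h, inverse_xU hP hs h, dD, pow_add, smul_mul_assoc, smul_mul_assoc,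
    mul_smul_comm, smul_smul]

/-- the adjoint as a real linear map -/
noncomputable def starL : (E →L[ℝ] E) →ₗ[ℝ] (E →L[ℝ] E) where
  toFun T := star T
  map_add' S T := star_add S T
  map_smul' a T := by rw [star_smul]; simp

lemma bigT_poly : IsPolyMap (bigT P) :=
  (bigI_poly.mul IsPolyMap.id).mul
    (((IsPolyMap.linear (starL (E := E))).comp bigI_poly).comp (IsPolyMap.linear (starL (E := E))))

end DD

section Op

variable {N : ℕ} {ι : Type*} [Fintype ι] [LinearOrder ι] {P : ι → Op N}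

/-- Rationality of all factors, with the same denominator: lower, upper and block diagonal. -/
theorem exists_rat_all (hP : IsGrading P) (hs : ∀ i, star (P i) = P i) :
    ∃ D ∈ PolyFun (Op N), D 1 = 1 ∧ (∀ T, Reg P T ↔ D T ≠ 0) ∧ (∀ T, D (star T) = D T) ∧
      (∀ y T, Unip P (fun i j => i < j) y → D (y * T) = D T) ∧
      (∀ T x, Unip P (fun i j => j < i) x → D (T * x) = D T) ∧
      (∃ Q : Op N → Op N, IsPolyMap Q ∧ ∀ T, Reg P T → yL P T = (D T)⁻¹ • Q T) ∧
      (∃ Q : Op N → Op N, IsPolyMap Q ∧ ∀ T, Reg P T → xU P T = (D T)⁻¹ • Q T) ∧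
      (∃ k : ℕ, ∃ Q : Op N → Op N, IsPolyMap Q ∧
        ∀ T, Reg P T → Q T = D T ^ k • Ring.inverse (yL P T)) ∧
      (∃ k : ℕ, ∃ Q : Op N → Op N, IsPolyMap Q ∧
        ∀ T, Reg P T → Q T = D T ^ k • Ring.inverse (xU P T)) ∧
      (∃ k : ℕ, ∃ Q : Op N → Op N, IsPolyMap Q ∧ ∀ T, Reg P T → Q T = D T ^ k • dD P T) := by
  refine ⟨bigD P, bigD_mem, bigD_one hP, reg_iff_bigD, bigD_star hs,
    fun _ T hy => bigD_mul_lower hP hy T, fun T _ hx => bigD_mul_upper hP hx T,
    ⟨bigQ P, bigQ_poly, fun _ h => yL_eq_bigQ h⟩,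
    ⟨fun T => star (bigQ P (star T)), ?_, fun T h => ?_⟩,
    ⟨_, bigI P, bigI_poly, fun _ h => inverse_yL hP h⟩,
    ⟨_, fun T => star (bigI P (star T)), ?_, fun _ h => inverse_xU hP hs h⟩,
    ⟨_, bigT P, bigT_poly, fun _ h => bigT_eq hP hs h⟩⟩
  · exact ((IsPolyMap.linear (starL (E := V N))).comp bigQ_poly).comp
      (IsPolyMap.linear (starL (E := V N)))
  · rw [xU, yL_eq_bigQ (h.star hs), star_smul, bigD_star hs]
    simp
  · exact ((IsPolyMap.linear (starL (E := V N))).comp bigI_poly).comp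
      (IsPolyMap.linear (starL (E := V N)))

/-- Rationality of the block diagonal factor. -/
theorem exists_rat_dD (hP : IsGrading P) (hs : ∀ i, star (P i) = P i) :
    ∃ D ∈ PolyFun (Op N), (∀ T, Reg P T ↔ D T ≠ 0) ∧ ∃ k : ℕ, ∃ Q : Op N → Op N, IsPolyMap Q ∧
      ∀ T, Reg P T → Q T = D T ^ k • dD P T := by
  obtain ⟨D, h1, _, h2, _, _, _, _, _, _, _, k, Q, h3, h4⟩ := exists_rat_all hP hs
  exact ⟨D, h1, h2, k, Q, h3, h4⟩

end Op

end Pool.Agent.Lib.MP_d9b062_al
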